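import Mathlib

/-!
MP_f4af34, GREEN block, high modes (`lam >= rho^2`), TWO SOURCES (first order pair).

`z' = -y - f1`, `y' = -2 y/s + (1 - lam/s^2) z + f2` on the layer `[R0, rho]`,
`z rho = 0`, `y R0 = - m z R0`, `m >= 0`.

* `Pair.abs_p_le`   : `s^2 |y s| <= rho^2 S1 + Int t^2 |f2|`   (any `lam >= rho^2`)
* `Pair.abs_y_le`   : `|y s| <= (rho/R0)^2 (S1 + Int |f2|)`
* `Pair.abs_z_le`   : `|z s| <= (rho - s) (Y + S1)` if `|y| <= Y`
* `Pair.ab`         : `|y| <= S`, `m0 |z| <= S` (hyperbolic splitting)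
* `Pair.high`       : `mu |y| <= 1.13 (mu S1 + S2)`, `mu^2 |z| <= 1.26 (mu S1 + S2)`.
-/

set_option autoImplicit false

open Set MeasureTheory

namespace SGHigh

/-- one mode on the layer, first order pair with two sources -/
structure Pair (R0 rho lam m : ℝ) (z y f1 f2 : ℝ → ℝ) : Prop where
  pos : 0 < R0
  lt : R0 < rho
  hlam : rho ^ 2 ≤ lam
  hm : 0 ≤ m
  hdz : ∀ s ∈ Icc R0 rho, HasDerivWithinAt z (- y s - f1 s) (Icc R0 rho) s
  hdy : ∀ s ∈ Icc R0 rho,
    HasDerivWithinAt y (-(2 * y s / s) + (1 - lam / s ^ 2) * z s + f2 s) (Icc R0 rho) s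
  hf1 : ContinuousOn f1 (Icc R0 rho)
  hf2 : ContinuousOn f2 (Icc R0 rho)
  hz : z rho = 0
  hr : y R0 = - m * z R0

/-- propagation of positivity to the right -/
theorem pos_right {a b : ℝ} {p : ℝ → ℝ} (hc : ContinuousOn p (Icc a b)) (ha : 0 < p a)
    (hstep : ∀ c ∈ Icc a b, a < c → (∀ t ∈ Ico a c, 0 < p t) → 0 < p c) :
    ∀ t ∈ Icc a b, 0 < p t := by
  intro t ht
  by_contra hneg
  push Not at hneg
  set S : Set ℝ := {t ∈ Icc a b | p t ≤ 0} with hS
  have hScl : IsCompact S := by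
    have : IsClosed S := by
      have := hc.preimage_isClosed_of_isClosed isClosed_Icc (isClosed_Iic (a := (0:ℝ)))
      have he : S = Icc a b ∩ p ⁻¹' (Iic 0) := by
        ext x; simp [hS]
      rw [he]; exact this
    exact isCompact_Icc.of_isClosed_subset this (fun x hx => hx.1)
  have hSne : S.Nonempty := ⟨t, ht, hneg⟩
  obtain ⟨c, hcS, hcl⟩ := hScl.exists_isLeast hSne
  have hac : a < c := by
    rcases lt_or_eq_of_le hcS.1.1 with h | h
    · exact h
    · exfalso; have := hcS.2; rw [← h] at this; linarith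
  have := hstep c hcS.1 hac (fun t ht => by
    by_contra hh
    push Not at hh
    have : c ≤ t := hcl ⟨⟨ht.1, ht.2.le.trans hcS.1.2⟩, hh⟩
    exact absurd ht.2 (not_lt.mpr this))
  linarith [hcS.2]

/-- propagation of positivity to the left -/
theorem pos_left {a b : ℝ} {p : ℝ → ℝ} (hc : ContinuousOn p (Icc a b)) (hb : 0 < p b)
    (hstep : ∀ c ∈ Icc a b, c < b → (∀ t ∈ Ioc c b, 0 < p t) → 0 < p c) :
    ∀ t ∈ Icc a b, 0 < p t := by
  intro t ht
  by_contra hneg
  push Not at hneg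
  set S : Set ℝ := {t ∈ Icc a b | p t ≤ 0} with hS
  have hScl : IsCompact S := by
    have : IsClosed S := by
      have := hc.preimage_isClosed_of_isClosed isClosed_Icc (isClosed_Iic (a := (0:ℝ)))
      have he : S = Icc a b ∩ p ⁻¹' (Iic 0) := by
        ext x; simp [hS]
      rw [he]; exact this
    exact isCompact_Icc.of_isClosed_subset this (fun x hx => hx.1)
  have hSne : S.Nonempty := ⟨t, ht, hneg⟩
  obtain ⟨c, hcS, hcl⟩ := hScl.exists_isGreatest hSne
  have hac : c < b := by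
    rcases lt_or_eq_of_le hcS.1.2 with h | h
    · exact h
    · exfalso; have := hcS.2; rw [h] at this; linarith
  have := hstep c hcS.1 hac (fun t ht => by
    by_contra hh
    push Not at hh
    have : t ≤ c := hcl ⟨⟨hcS.1.1.trans ht.1.le, ht.2⟩, hh⟩
    exact absurd ht.1 (not_lt.mpr this))
  linarith [hcS.2]

/-- a function with derivative `<= 0` on a half open piece ending at `c` (closed interval by
continuity) is antitone; stated as an inequality between two points -/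
theorem le_of_deriv_nonpos {a b : ℝ} (hab : a ≤ b) {g g' : ℝ → ℝ}
    (hc : ContinuousOn g (Icc a b)) (hd : ∀ x ∈ Ioo a b, HasDerivAt g (g' x) x)
    (hn : ∀ x ∈ Ioo a b, g' x ≤ 0) : g b ≤ g a := by
  have := antitoneOn_of_deriv_nonpos (convex_Icc a b) hc
    (fun x hx => by
      rw [interior_Icc] at hx
      exact (hd x hx).differentiableAt.differentiableWithinAt)
    (fun x hx => by
      rw [interior_Icc] at hx
      rw [(hd x hx).deriv]; exact hn x hx)
  exact this ⟨le_rfl, hab⟩ ⟨hab, le_rfl⟩ hab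

variable {R0 rho lam m : ℝ} {z y f1 f2 : ℝ → ℝ}

theorem Pair.cz (M : Pair R0 rho lam m z y f1 f2) : ContinuousOn z (Icc R0 rho) :=
  fun s hs => (M.hdz s hs).continuousWithinAt

theorem Pair.cy (M : Pair R0 rho lam m z y f1 f2) : ContinuousOn y (Icc R0 rho) :=
  fun s hs => (M.hdy s hs).continuousWithinAt

theorem Pair.neg (M : Pair R0 rho lam m z y f1 f2) :
    Pair R0 rho lam m (fun s => - z s) (fun s => - y s) (fun s => - f1 s) (fun s => - f2 s) where
  pos := M.pos
  lt := M.lt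
  hlam := M.hlam
  hm := M.hm
  hdz := fun s hs => (M.hdz s hs).neg.congr_deriv (by ring)
  hdy := fun s hs => (M.hdy s hs).neg.congr_deriv (by ring)
  hf1 := M.hf1.neg
  hf2 := M.hf2.neg
  hz := by simp [M.hz]
  hr := by simp only [M.hr]; ring

/-- `p = s^2 y`, `p' = (s^2 - lam) z + s^2 f2` -/
theorem Pair.hp (M : Pair R0 rho lam m z y f1 f2) :
    ∀ s ∈ Icc R0 rho, HasDerivWithinAt (fun s => s ^ 2 * y s)
      ((s ^ 2 - lam) * z s + s ^ 2 * f2 s) (Icc R0 rho) s := by
  intro s hs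
  have hs0 : 0 < s := M.pos.trans_le hs.1
  have h := (((hasDerivAt_id s).pow 2).hasDerivWithinAt (s := Icc R0 rho)).mul (M.hdy s hs)
  refine h.congr_deriv ?_
  simp only [Pi.pow_apply, id]
  field_simp
  ring

theorem Pair.cp (M : Pair R0 rho lam m z y f1 f2) :
    ContinuousOn (fun s => s ^ 2 * y s) (Icc R0 rho) :=
  fun s hs => (M.hp s hs).continuousWithinAt

theorem Pair.cdp (M : Pair R0 rho lam m z y f1 f2) :
    ContinuousOn (fun s => (s ^ 2 - lam) * z s + s ^ 2 * f2 s) (Icc R0 rho) :=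
  ((((continuous_pow 2).sub continuous_const).continuousOn).mul M.cz).add
    ((continuous_pow 2).continuousOn.mul M.hf2)

/-- fundamental theorem for `p` -/
theorem Pair.ftc (M : Pair R0 rho lam m z y f1 f2) {a b : ℝ} (ha : R0 ≤ a) (hab : a ≤ b)
    (hb : b ≤ rho) :
    ∫ t in a..b, ((t ^ 2 - lam) * z t + t ^ 2 * f2 t) = b ^ 2 * y b - a ^ 2 * y a := by
  have hsub : Icc a b ⊆ Icc R0 rho := Icc_subset_Icc ha hb
  apply intervalIntegral.integral_eq_sub_of_hasDerivAt_of_le hab (M.cp.mono hsub)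
  · intro x hx
    have hx' : x ∈ Icc R0 rho := hsub ⟨hx.1.le, hx.2.le⟩
    exact (M.hp x hx').hasDerivAt (Icc_mem_nhds (ha.trans_lt hx.1) (hx.2.trans_le hb))
  · apply ContinuousOn.intervalIntegrable
    rw [uIcc_of_le hab]
    exact M.cdp.mono hsub

theorem Pair.derivz (M : Pair R0 rho lam m z y f1 f2) {x : ℝ} (h1 : R0 < x) (h2 : x < rho) :
    HasDerivAt z (- y x - f1 x) x :=
  (M.hdz x ⟨h1.le, h2.le⟩).hasDerivAt (Icc_mem_nhds h1 h2)

theorem Pair.intf (M : Pair R0 rho lam m z y f1 f2) {a b : ℝ} (ha : R0 ≤ a) (hab : a ≤ b)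
    (hb : b ≤ rho) : IntervalIntegrable (fun t => t ^ 2 * |f2 t|) volume a b := by
  apply ContinuousOn.intervalIntegrable
  rw [uIcc_of_le hab]
  exact ((continuous_pow 2).continuousOn.mul M.hf2.abs).mono (Icc_subset_Icc ha hb)

theorem Pair.intf0 (M : Pair R0 rho lam m z y f1 f2) {a b : ℝ} (ha : R0 ≤ a) (hab : a ≤ b)
    (hb : b ≤ rho) : IntervalIntegrable (fun t => |f2 t|) volume a b := by
  apply ContinuousOn.intervalIntegrable
  rw [uIcc_of_le hab]
  exact M.hf2.abs.mono (Icc_subset_Icc ha hb)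

theorem Pair.intle (M : Pair R0 rho lam m z y f1 f2) {a b : ℝ} (ha : R0 ≤ a) (hab : a ≤ b)
    (hb : b ≤ rho) :
    ∫ t in a..b, t ^ 2 * |f2 t| ≤ ∫ t in R0..rho, t ^ 2 * |f2 t| := by
  have hR : R0 ≤ rho := M.lt.le
  have h1 := intervalIntegral.integral_add_adjacent_intervals
    (M.intf le_rfl ha (hab.trans hb)) (M.intf ha hab hb)
  have h2 := intervalIntegral.integral_add_adjacent_intervals
    (M.intf le_rfl (ha.trans hab) hb) (M.intf (ha.trans hab) hb le_rfl)
  have p1 : 0 ≤ ∫ t in R0..a, t ^ 2 * |f2 t| :=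
    intervalIntegral.integral_nonneg ha (fun t _ => by positivity)
  have p2 : 0 ≤ ∫ t in b..rho, t ^ 2 * |f2 t| :=
    intervalIntegral.integral_nonneg hb (fun t _ => by positivity)
  linarith

/-- one-sided bound -/
theorem Pair.p_le (M : Pair R0 rho lam m z y f1 f2) {S1 : ℝ}
    (hS1 : ∀ s ∈ Icc R0 rho, |f1 s| ≤ S1) :
    ∀ s ∈ Icc R0 rho, s ^ 2 * y s ≤ rho ^ 2 * S1 + ∫ t in R0..rho, t ^ 2 * |f2 t| := by
  intro s hs
  by_contra hcon
  push Not at hcon
  have hF0 : 0 ≤ ∫ t in R0..rho, t ^ 2 * |f2 t| :=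
    intervalIntegral.integral_nonneg M.lt.le (fun t _ => by positivity)
  have hS0 : 0 ≤ S1 := (abs_nonneg _).trans (hS1 s hs)
  -- `p > rho^2 S1` implies `y > S1`
  have key : ∀ t ∈ Icc R0 rho, 0 < t ^ 2 * y t - rho ^ 2 * S1 → S1 < y t := by
    intro t ht h
    have ht0 : 0 < t := M.pos.trans_le ht.1
    by_contra hh
    push Not at hh
    have h1 : t ^ 2 * y t ≤ t ^ 2 * S1 := mul_le_mul_of_nonneg_left hh (sq_nonneg t)
    have h2 : t ^ 2 * S1 ≤ rho ^ 2 * S1 :=
      mul_le_mul_of_nonneg_right (pow_le_pow_left₀ ht0.le ht.2 2) hS0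
    linarith
  have zneg : ∀ t ∈ Icc R0 rho, 0 < t ^ 2 * y t - rho ^ 2 * S1 → - y t - f1 t ≤ 0 := by
    intro t ht h
    have h1 := key t ht h
    have h2 := neg_abs_le (f1 t)
    have h3 := hS1 t ht
    linarith
  have hcont : ContinuousOn (fun t => t ^ 2 * y t - rho ^ 2 * S1) (Icc R0 rho) :=
    M.cp.sub continuousOn_const
  have hps : 0 < s ^ 2 * y s - rho ^ 2 * S1 := by linarith
  rcases lt_or_ge (z s) 0 with hzs | hzs
  · -- move right
    have hstep : ∀ c ∈ Icc s rho, s < c → (∀ t ∈ Ico s c, 0 < t ^ 2 * y t - rho ^ 2 * S1) →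
        (∀ t ∈ Icc s c, z t ≤ z s) := by
      intro c hc hsc hpc t ht
      apply le_of_deriv_nonpos ht.1 (M.cz.mono (Icc_subset_Icc hs.1 (ht.2.trans hc.2)))
        (g' := fun t => - y t - f1 t)
      · intro x hx
        exact M.derivz (hs.1.trans_lt hx.1) (hx.2.trans_le (ht.2.trans hc.2))
      · intro x hx
        exact zneg x ⟨hs.1.trans hx.1.le, (hx.2.le.trans ht.2).trans hc.2⟩
          (hpc x ⟨hx.1.le, hx.2.trans_le ht.2⟩)
    have hall : ∀ t ∈ Icc s rho, 0 < t ^ 2 * y t - rho ^ 2 * S1 := by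
      apply pos_right (hcont.mono (Icc_subset_Icc hs.1 le_rfl)) hps
      intro c hc hsc hpc
      have hzc := hstep c hc hsc hpc
      have hft := M.ftc hs.1 hsc.le hc.2
      have hge : ∫ t in s..c, (-(t ^ 2 * |f2 t|)) ≤
          ∫ t in s..c, ((t ^ 2 - lam) * z t + t ^ 2 * f2 t) := by
        apply intervalIntegral.integral_mono_on hsc.le (M.intf hs.1 hsc.le hc.2).neg
        · apply ContinuousOn.intervalIntegrable
          rw [uIcc_of_le hsc.le]
          exact M.cdp.mono (Icc_subset_Icc hs.1 hc.2)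
        · intro t ht
          have hl : t ^ 2 - lam ≤ 0 := by
            have : t ^ 2 ≤ rho ^ 2 := by
              have h0 : 0 ≤ t := M.pos.le.trans (hs.1.trans ht.1)
              exact pow_le_pow_left₀ h0 (ht.2.trans hc.2) 2
            linarith [M.hlam]
          have h1 := mul_nonneg_of_nonpos_of_nonpos hl ((hzc t ht).trans hzs.le)
          show -(t ^ 2 * |f2 t|) ≤ _
          have h2 : -(t ^ 2 * |f2 t|) ≤ t ^ 2 * f2 t := by
            have := neg_abs_le (f2 t)
            have := mul_le_mul_of_nonneg_left this (sq_nonneg t)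
            linarith
          linarith
      rw [intervalIntegral.integral_neg, hft] at hge
      have := M.intle hs.1 hsc.le hc.2
      linarith
    rcases lt_or_eq_of_le hs.2 with hlt | heq
    · have := hstep rho ⟨hs.2, le_rfl⟩ hlt (fun t ht => hall t ⟨ht.1, ht.2.le⟩) rho ⟨hs.2, le_rfl⟩
      rw [M.hz] at this
      linarith
    · rw [heq, M.hz] at hzs; exact lt_irrefl _ hzs
  · -- move left
    have hstep : ∀ c ∈ Icc R0 s, c < s → (∀ t ∈ Ioc c s, 0 < t ^ 2 * y t - rho ^ 2 * S1) →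
        (∀ t ∈ Icc c s, z s ≤ z t) := by
      intro c hc hsc hpc t ht
      apply le_of_deriv_nonpos ht.2 (M.cz.mono (Icc_subset_Icc (hc.1.trans ht.1) hs.2))
        (g' := fun t => - y t - f1 t)
      · intro x hx
        exact M.derivz ((hc.1.trans ht.1).trans_lt hx.1) (hx.2.trans_le hs.2)
      · intro x hx
        exact zneg x ⟨hc.1.trans (ht.1.trans hx.1.le), hx.2.le.trans hs.2⟩
          (hpc x ⟨ht.1.trans_lt hx.1, hx.2.le⟩)
    have hall : ∀ t ∈ Icc R0 s, 0 < t ^ 2 * y t - rho ^ 2 * S1 := by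
      apply pos_left (hcont.mono (Icc_subset_Icc le_rfl hs.2)) hps
      intro c hc hsc hpc
      have hzc := hstep c hc hsc hpc
      have hft := M.ftc hc.1 hsc.le hs.2
      have hge : ∫ t in c..s, ((t ^ 2 - lam) * z t + t ^ 2 * f2 t) ≤
          ∫ t in c..s, (t ^ 2 * |f2 t|) := by
        apply intervalIntegral.integral_mono_on hsc.le _ (M.intf hc.1 hsc.le hs.2)
        · intro t ht
          have hl : t ^ 2 - lam ≤ 0 := by
            have : t ^ 2 ≤ rho ^ 2 := by
              have h0 : 0 ≤ t := M.pos.le.trans (hc.1.trans ht.1)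
              exact pow_le_pow_left₀ h0 (ht.2.trans hs.2) 2
            linarith [M.hlam]
          have h1 := mul_nonpos_of_nonpos_of_nonneg hl (hzs.trans (hzc t ht))
          have h2 : t ^ 2 * f2 t ≤ t ^ 2 * |f2 t| :=
            mul_le_mul_of_nonneg_left (le_abs_self (f2 t)) (sq_nonneg t)
          linarith
        · apply ContinuousOn.intervalIntegrable
          rw [uIcc_of_le hsc.le]
          exact M.cdp.mono (Icc_subset_Icc hc.1 hs.2)
      rw [hft] at hge
      have := M.intle hc.1 hsc.le hs.2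
      linarith
    have hy0 := key R0 ⟨le_rfl, M.lt.le⟩ (hall R0 ⟨le_rfl, hs.1⟩)
    have hz0 : 0 ≤ z R0 := by
      rcases lt_or_eq_of_le hs.1 with hlt | heq
      · exact hzs.trans (hstep R0 ⟨le_rfl, hs.1⟩ hlt (fun t ht => hall t ⟨ht.1.le, ht.2⟩) R0
          ⟨le_rfl, hs.1⟩)
      · rw [heq]; exact hzs
    rw [M.hr] at hy0
    have : 0 ≤ m * z R0 := mul_nonneg M.hm hz0
    linarith

/-- (T) `s^2 |y(s)| <= rho^2 S1 + Int t^2 |f2|` -/
theorem Pair.abs_p_le (M : Pair R0 rho lam m z y f1 f2) {S1 : ℝ}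
    (hS1 : ∀ s ∈ Icc R0 rho, |f1 s| ≤ S1) :
    ∀ s ∈ Icc R0 rho, s ^ 2 * |y s| ≤ rho ^ 2 * S1 + ∫ t in R0..rho, t ^ 2 * |f2 t| := by
  intro s hs
  have h1 := M.p_le hS1 s hs
  have h2 := M.neg.p_le (S1 := S1) (fun s hs => by rw [abs_neg]; exact hS1 s hs) s hs
  simp only [abs_neg] at h2
  rw [← abs_of_nonneg (sq_nonneg s), ← abs_mul, abs_le]
  constructor
  · linarith
  · exact h1

/-- (T') `|y(s)| <= (rho/R0)^2 (S1 + Int |f2|)` -/
theorem Pair.abs_y_le (M : Pair R0 rho lam m z y f1 f2) {S1 : ℝ}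
    (hS1 : ∀ s ∈ Icc R0 rho, |f1 s| ≤ S1) :
    ∀ s ∈ Icc R0 rho, |y s| ≤ (rho / R0) ^ 2 * (S1 + ∫ t in R0..rho, |f2 t|) := by
  intro s hs
  have h := M.abs_p_le hS1 s hs
  have hR : 0 < R0 := M.pos
  have h2 : ∫ t in R0..rho, t ^ 2 * |f2 t| ≤ ∫ t in R0..rho, rho ^ 2 * |f2 t| := by
    apply intervalIntegral.integral_mono_on M.lt.le (M.intf le_rfl M.lt.le le_rfl)
      ((M.intf0 le_rfl M.lt.le le_rfl).const_mul _)
    intro t ht
    exact mul_le_mul_of_nonneg_right (pow_le_pow_left₀ (hR.le.trans ht.1) ht.2 2) (abs_nonneg _)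
  rw [intervalIntegral.integral_const_mul] at h2
  have h3 : R0 ^ 2 * |y s| ≤ s ^ 2 * |y s| :=
    mul_le_mul_of_nonneg_right (pow_le_pow_left₀ hR.le hs.1 2) (abs_nonneg _)
  rw [div_pow, div_mul_eq_mul_div, le_div_iff₀ (by positivity)]
  linarith

/-- the sup form -/
theorem Pair.abs_y_le' (M : Pair R0 rho lam m z y f1 f2) {S1 S2 : ℝ}
    (hS1 : ∀ s ∈ Icc R0 rho, |f1 s| ≤ S1) (hS2 : ∀ s ∈ Icc R0 rho, |f2 s| ≤ S2) :
    ∀ s ∈ Icc R0 rho, |y s| ≤ (rho / R0) ^ 2 * (S1 + (rho - R0) * S2) := by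
  intro s hs
  refine (M.abs_y_le hS1 s hs).trans ?_
  have h2 : ∫ t in R0..rho, |f2 t| ≤ ∫ _t in R0..rho, S2 := by
    apply intervalIntegral.integral_mono_on M.lt.le (M.intf0 le_rfl M.lt.le le_rfl)
      intervalIntegrable_const
    intro t ht
    exact hS2 t ht
  rw [intervalIntegral.integral_const, smul_eq_mul] at h2
  have : (0:ℝ) ≤ (rho / R0) ^ 2 := sq_nonneg _
  exact mul_le_mul_of_nonneg_left (by linarith) this

/-- `|z(s)| <= (rho - s) (Y + S1)` -/
theorem Pair.abs_z_le (M : Pair R0 rho lam m z y f1 f2) {S1 Y : ℝ}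
    (hS1 : ∀ s ∈ Icc R0 rho, |f1 s| ≤ S1) (hY : ∀ s ∈ Icc R0 rho, |y s| ≤ Y) :
    ∀ s ∈ Icc R0 rho, |z s| ≤ (rho - s) * (Y + S1) := by
  intro s hs
  have h : ∀ σ : ℝ, |σ| = 1 → σ * z s ≤ (rho - s) * (Y + S1) := by
    intro σ hσ
    have := le_of_deriv_nonpos hs.2 (g := fun t => - (σ * z t) + (rho - t) * (Y + S1))
      (g' := fun t => - (σ * (- y t - f1 t)) + (0 - 1) * (Y + S1))
      (by
        have := M.cz.mono (Icc_subset_Icc hs.1 (le_refl rho))
        fun_prop)
      (by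
        intro x hx
        have := M.derivz (hs.1.trans_lt hx.1) hx.2
        exact ((this.const_mul σ).neg).add
          (((hasDerivAt_const x rho).sub (hasDerivAt_id x)).mul_const _))
      (by
        intro x hx
        have hx' : x ∈ Icc R0 rho := ⟨hs.1.trans hx.1.le, hx.2.le⟩
        have h1 := hY x hx'
        have h2 := hS1 x hx'
        have h3 : |σ * (- y x - f1 x)| ≤ Y + S1 := by
          rw [abs_mul, hσ, one_mul]
          calc |(- y x - f1 x)| ≤ |-(y x)| + |f1 x| := abs_sub _ _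
            _ = |y x| + |f1 x| := by rw [abs_neg]
            _ ≤ _ := by linarith
        have h4 := neg_abs_le (σ * (- y x - f1 x))
        linarith)
    simp only [M.hz, sub_self, zero_mul, mul_zero, neg_zero, add_zero] at this
    linarith
  have h1 := h 1 (by simp)
  have h2 := h (-1) (by simp)
  rw [abs_le]
  constructor <;> linarith

/-- growth lemma: `b' = n b + g`, `|g| <= n S`: `exp(-n s)(sigma b - S)` is nondecreasing -/
theorem grow {a c n S : ℝ} (hac : a ≤ c) {b b' : ℝ → ℝ} (hc : ContinuousOn b (Icc a c))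
    (hd : ∀ x ∈ Ioo a c, HasDerivAt b (b' x) x)
    (hb : ∀ x ∈ Ioo a c, |b' x - n * b x| ≤ n * S) :
    |b a| - S ≤ Real.exp (-(n * (c - a))) * (|b c| - S) := by
  have h : ∀ σ : ℝ, |σ| = 1 →
      (σ * b a - S) ≤ Real.exp (-(n * (c - a))) * (σ * b c - S) := by
    intro σ hσ
    have := le_of_deriv_nonpos hac (g := fun t => - (Real.exp (-(n * (t - a))) * (σ * b t - S)))
      (g' := fun t => - (Real.exp (-(n * (t - a))) * (-(n * 1)) * (σ * b t - S) +
        Real.exp (-(n * (t - a))) * (σ * b' t)))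
      (by fun_prop)
      (by
        intro x hx
        have hb1 := ((hd x hx).const_mul σ).sub_const S
        have he : HasDerivAt (fun t => Real.exp (-(n * (t - a))))
            (Real.exp (-(n * (x - a))) * (-(n * 1))) x :=
          (((hasDerivAt_id x).sub_const a).const_mul n).neg.exp
        exact (he.mul hb1).neg)
      (by
        intro x hx
        have h1 : |σ * (b' x - n * b x)| ≤ n * S := by
          rw [abs_mul, hσ, one_mul]; exact hb x hx
        have h2 := neg_abs_le (σ * (b' x - n * b x))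
        have h3 : 0 < Real.exp (-(n * (x - a))) := Real.exp_pos _
        have h4 : 0 ≤ σ * (b' x - n * b x) + n * S := by linarith
        have h5 := mul_nonneg h3.le h4
        nlinarith)
    simp only [sub_self, mul_zero, neg_zero, Real.exp_zero, one_mul] at this
    linarith
  have he : 0 < Real.exp (-(n * (c - a))) := Real.exp_pos _
  rcases abs_cases (b a) with ⟨h1, _⟩ | ⟨h1, _⟩
  · have := h 1 (by simp)
    have h2 : Real.exp (-(n * (c - a))) * (1 * b c - S) ≤
        Real.exp (-(n * (c - a))) * (|b c| - S) :=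
      mul_le_mul_of_nonneg_left (by linarith [le_abs_self (b c)]) he.le
    linarith
  · have := h (-1) (by simp)
    have h2 : Real.exp (-(n * (c - a))) * (-1 * b c - S) ≤
        Real.exp (-(n * (c - a))) * (|b c| - S) :=
      mul_le_mul_of_nonneg_left (by linarith [neg_abs_le (b c)]) he.le
    linarith

/-- decay lemma: `b' = - n b + g` -/
theorem decay {a c n S : ℝ} (hac : a ≤ c) {b b' : ℝ → ℝ} (hc : ContinuousOn b (Icc a c))
    (hd : ∀ x ∈ Ioo a c, HasDerivAt b (b' x) x)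
    (hb : ∀ x ∈ Ioo a c, |b' x + n * b x| ≤ n * S) :
    |b c| - S ≤ Real.exp (-(n * (c - a))) * (|b a| - S) := by
  have hcont : ContinuousOn (fun t => b (-t)) (Icc (-c) (-a)) := by
    apply hc.comp continuous_neg.continuousOn
    intro x hx
    exact ⟨by linarith [hx.2], by linarith [hx.1]⟩
  have := grow (a := -c) (c := -a) (n := n) (S := S) (by linarith) (b := fun t => b (-t))
    (b' := fun t => - b' (-t)) hcont
    (by
      intro x hx
      have h := hd (-x) ⟨by linarith [hx.2], by linarith [hx.1]⟩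
      have h2 : HasDerivAt (b ∘ Neg.neg) (b' (-x) * (-1)) x :=
        HasDerivAt.comp x h (hasDerivAt_neg x)
      have h3 : HasDerivAt (fun t => b (-t)) (b' (-x) * (-1)) x := h2
      exact h3.congr_deriv (by ring))
    (by
      intro x hx
      have h := hb (-x) ⟨by linarith [hx.2], by linarith [hx.1]⟩
      rw [← abs_neg]
      have e : -(-b' (-x) - n * b (-x)) = b' (-x) + n * b (-x) := by ring
      rw [e]; exact h)
  simp only [neg_neg] at this
  have e : -a - -c = c - a := by ring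
  rw [e] at this
  exact this

/-- (AB) hyperbolic splitting with constant rate `n` -/
theorem Pair.ab (M : Pair R0 rho lam m z y f1 f2) {n S : ℝ} (hn : 0 < n) 
    (hG : ∀ s ∈ Icc R0 rho,
      |(-(2 * y s / s) + (1 - lam / s ^ 2) * z s + f2 s) + n ^ 2 * z s| + n * |f1 s| ≤ n * S) :
    ∀ s ∈ Icc R0 rho, |y s| ≤ S ∧ n * |z s| ≤ S := by
  set G : ℝ → ℝ := fun s => (-(2 * y s / s) + (1 - lam / s ^ 2) * z s + f2 s) with hGdef
  have dy : ∀ x, R0 < x → x < rho → HasDerivAt y (G x) x := fun x h1 h2 =>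
    (M.hdy x ⟨h1.le, h2.le⟩).hasDerivAt (Icc_mem_nhds h1 h2)
  have ca : ContinuousOn (fun s => y s + n * z s) (Icc R0 rho) := M.cy.add (M.cz.const_smul n)
  have cb : ContinuousOn (fun s => y s - n * z s) (Icc R0 rho) := M.cy.sub (M.cz.const_smul n)
  have hbnd : ∀ s ∈ Icc R0 rho, ∀ σ : ℝ, |σ| = 1 →
      |G s + n ^ 2 * z s + σ * (n * f1 s)| ≤ n * S := by
    intro s hs σ hσ
    have h1 := hG s hs
    calc |G s + n ^ 2 * z s + σ * (n * f1 s)| ≤ |G s + n ^ 2 * z s| + |σ * (n * f1 s)| :=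
          abs_add_le _ _
      _ = |G s + n ^ 2 * z s| + n * |f1 s| := by
          rw [abs_mul, hσ, one_mul, abs_mul, abs_of_pos hn]
      _ ≤ _ := h1
  -- decay of a to the right
  have hA : ∀ s t, R0 ≤ s → s ≤ t → t ≤ rho →
      |y t + n * z t| - S ≤ Real.exp (-(n * (t - s))) * (|y s + n * z s| - S) := by
    intro s t h1 h2 h3
    apply decay h2 (b := fun s => y s + n * z s)
      (b' := fun s => G s + n * (- y s - f1 s)) (ca.mono (Icc_subset_Icc h1 h3))
    · intro x hx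
      exact (dy x (h1.trans_lt hx.1) (hx.2.trans_le h3)).add
        ((M.derivz (h1.trans_lt hx.1) (hx.2.trans_le h3)).const_mul n)
    · intro x hx
      have := hbnd x ⟨h1.trans hx.1.le, hx.2.le.trans h3⟩ (-1) (by simp)
      have e : G x + n * (- y x - f1 x) + n * (y x + n * z x) =
          G x + n ^ 2 * z x + -1 * (n * f1 x) := by ring
      rw [e]; exact this
  have hB : ∀ s t, R0 ≤ s → s ≤ t → t ≤ rho →
      |y s - n * z s| - S ≤ Real.exp (-(n * (t - s))) * (|y t - n * z t| - S) := by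
    intro s t h1 h2 h3
    apply grow h2 (b := fun s => y s - n * z s)
      (b' := fun s => G s - n * (- y s - f1 s)) (cb.mono (Icc_subset_Icc h1 h3))
    · intro x hx
      exact (dy x (h1.trans_lt hx.1) (hx.2.trans_le h3)).sub
        ((M.derivz (h1.trans_lt hx.1) (hx.2.trans_le h3)).const_mul n)
    · intro x hx
      have := hbnd x ⟨h1.trans hx.1.le, hx.2.le.trans h3⟩ 1 (by simp)
      have e : G x - n * (- y x - f1 x) - n * (y x - n * z x) =
          G x + n ^ 2 * z x + 1 * (n * f1 x) := by ring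
      rw [e]; exact this
  have hR0 : |y R0 + n * z R0| ≤ |y R0 - n * z R0| := by
    rw [M.hr]
    have e1 : -m * z R0 + n * z R0 = (n - m) * z R0 := by ring
    have e2 : -m * z R0 - n * z R0 = -((n + m) * z R0) := by ring
    rw [e1, e2, abs_neg, abs_mul, abs_mul]
    apply mul_le_mul_of_nonneg_right _ (abs_nonneg _)
    rw [abs_of_nonneg (by linarith [M.hm] : 0 ≤ n + m), abs_le]
    constructor <;> linarith [M.hm]
  set q := Real.exp (-(n * (rho - R0))) with hq
  have hq0 : 0 < q := Real.exp_pos _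
  have hq1 : q < 1 := by
    rw [hq, Real.exp_lt_one_iff]
    have := mul_pos hn (sub_pos.mpr M.lt)
    linarith
  have h1 := hA R0 rho le_rfl M.lt.le le_rfl
  have h2 := hB R0 rho le_rfl M.lt.le le_rfl
  rw [← hq] at h1 h2
  simp only [M.hz, mul_zero, add_zero, sub_zero] at h1 h2
  have hX : |y rho| - S ≤ 0 := by
    by_contra hcon
    push Not at hcon
    have h3 : |y rho| - S ≤ q * (|y R0 - n * z R0| - S) :=
      h1.trans (mul_le_mul_of_nonneg_left (by linarith) hq0.le)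
    have h4 : q * (|y R0 - n * z R0| - S) ≤ q * (q * (|y rho| - S)) :=
      mul_le_mul_of_nonneg_left h2 hq0.le
    have h5 : q * (q * (|y rho| - S)) < |y rho| - S := by
      have : q * q < 1 := by nlinarith
      nlinarith
    linarith
  have hb0 : |y R0 - n * z R0| - S ≤ 0 :=
    h2.trans (mul_nonpos_of_nonneg_of_nonpos hq0.le hX)
  have ha0 : |y R0 + n * z R0| - S ≤ 0 := by linarith
  intro s hs
  have ha := (hA R0 s le_rfl hs.1 hs.2).trans
    (mul_nonpos_of_nonneg_of_nonpos (Real.exp_pos _).le ha0)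
  have hb := (hB s rho hs.1 hs.2 le_rfl)
  simp only [M.hz, mul_zero, sub_zero] at hb
  have hb := hb.trans (mul_nonpos_of_nonneg_of_nonpos (Real.exp_pos _).le hX)
  have ha1 := abs_le.mp (show |y s + n * z s| ≤ S by linarith)
  have hb1 := abs_le.mp (show |y s - n * z s| ≤ S by linarith)
  constructor
  · rw [abs_le]; constructor <;> linarith [ha1.1, ha1.2, hb1.1, hb1.2]
  · have : n * |z s| = |n * z s| := by rw [abs_mul, abs_of_pos hn]
    rw [this, abs_le]; constructor <;> linarith [ha1.1, ha1.2, hb1.1, hb1.2]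

theorem Pair.exists_sup {g : ℝ → ℝ} {a b : ℝ} (hab : a ≤ b) (hg : ContinuousOn g (Icc a b)) :
    ∃ Y : ℝ, 0 ≤ Y ∧ (∀ s ∈ Icc a b, |g s| ≤ Y) ∧ ∃ s ∈ Icc a b, |g s| = Y := by
  obtain ⟨s, hs, hm⟩ := isCompact_Icc.exists_isMaxOn ⟨a, le_rfl, hab⟩ hg.abs
  exact ⟨|g s|, abs_nonneg _, fun t ht => hm ht, s, hs, rfl⟩

/-- regime B: `n^2 = lam/rho^2 - 1 >= 4` -/
theorem Pair.highB (M : Pair R0 rho lam m z y f1 f2) (hw : rho - R0 ≤ 1 / 4) (hR : 1000 ≤ R0)
    {S1 S2 n : ℝ} (hS1 : ∀ s ∈ Icc R0 rho, |f1 s| ≤ S1) (hS2 : ∀ s ∈ Icc R0 rho, |f2 s| ≤ S2)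
    (hn : 2 ≤ n) (hn2 : n ^ 2 = lam / rho ^ 2 - 1) :
    ∀ s ∈ Icc R0 rho, |y s| ≤ 1.002 * (S1 + S2 / n) ∧ n * |z s| ≤ 1.002 * (S1 + S2 / n) := by
  have hn0 : 0 < n := by linarith
  have hrho : 0 < rho := M.pos.trans M.lt
  have hlr := M.lt
  obtain ⟨Y, hY0, hY, sy, hsy, hYe⟩ := Pair.exists_sup M.lt.le M.cy
  obtain ⟨Z, hZ0, hZ, sz, hsz, hZe⟩ := Pair.exists_sup M.lt.le M.cz
  have hS10 : 0 ≤ S1 := (abs_nonneg _).trans (hS1 R0 ⟨le_rfl, M.lt.le⟩)
  have hS20 : 0 ≤ S2 := (abs_nonneg _).trans (hS2 R0 ⟨le_rfl, M.lt.le⟩)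
  -- the variation of the coefficient
  have hlam : lam = (n ^ 2 + 1) * rho ^ 2 := by
    rw [hn2]; field_simp; ring
  have hvar : ∀ s ∈ Icc R0 rho, |(1 - lam / s ^ 2) + n ^ 2| ≤ n ^ 2 * (1 / 1500) := by
    intro s hs
    have hs0 : 0 < s := M.pos.trans_le hs.1
    have hs1000 : 1000 ≤ s := hR.trans hs.1
    have e : (1 - lam / s ^ 2) + n ^ 2 = -((n ^ 2 + 1) * (rho ^ 2 / s ^ 2 - 1)) := by
      rw [hlam]; field_simp; ring
    have h1 : 1 ≤ rho ^ 2 / s ^ 2 := by
      rw [one_le_div (by positivity)]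
      exact pow_le_pow_left₀ hs0.le hs.2 2
    rw [e, abs_neg, abs_of_nonneg (mul_nonneg (by positivity) (by linarith))]
    have h2 : rho ^ 2 / s ^ 2 ≤ 1 + 1 / 1990 := by
      rw [div_le_iff₀ (by positivity)]
      have : rho ≤ s * (1 + 1 / 4000) := by nlinarith [hs.1]
      nlinarith
    have h3 : (4:ℝ) ≤ n ^ 2 := by nlinarith
    nlinarith
  set S : ℝ := S1 + (S2 + (2 / R0) * Y + n ^ 2 * (1 / 1500) * Z) / n with hS
  have hab := M.ab (n := n) (S := S) hn0 (by
    intro s hs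
    have hs0 : 0 < s := M.pos.trans_le hs.1
    have e : (-(2 * y s / s) + (1 - lam / s ^ 2) * z s + f2 s) + n ^ 2 * z s =
        -(2 * y s / s) + ((1 - lam / s ^ 2) + n ^ 2) * z s + f2 s := by ring
    rw [e]
    have h1 : |-(2 * y s / s)| ≤ (2 / R0) * Y := by
      rw [abs_neg, abs_div, abs_mul, abs_of_pos hs0, abs_two]
      have h := hY s hs
      rw [div_mul_eq_mul_div]
      apply div_le_div₀ (by positivity) (by linarith) M.pos hs.1
    have h2 : |((1 - lam / s ^ 2) + n ^ 2) * z s| ≤ n ^ 2 * (1 / 1500) * Z := by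
      rw [abs_mul]
      exact mul_le_mul (hvar s hs) (hZ s hs) (abs_nonneg _) (by positivity)
    have h3 := hS2 s hs
    have h4 := hS1 s hs
    have h5 : |-(2 * y s / s) + ((1 - lam / s ^ 2) + n ^ 2) * z s + f2 s| ≤
        (2 / R0) * Y + n ^ 2 * (1 / 1500) * Z + S2 := by
      refine (abs_add_le _ _).trans ?_
      have := abs_add_le (-(2 * y s / s)) (((1 - lam / s ^ 2) + n ^ 2) * z s)
      linarith
    have h6 : n * S = n * S1 + (S2 + (2 / R0) * Y + n ^ 2 * (1 / 1500) * Z) := by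
      rw [hS]; field_simp
    rw [h6]
    have h7 : n * |f1 s| ≤ n * S1 := mul_le_mul_of_nonneg_left h4 hn0.le
    linarith)
  have hYS : Y ≤ S := by rw [← hYe]; exact (hab sy hsy).1
  have hZS : n * Z ≤ S := by rw [← hZe]; exact (hab sz hsz).2
  have hSle : S ≤ 1.002 * (S1 + S2 / n) := by
    have h1 : S = S1 + S2 / n + ((2 / R0) * Y) / n + (1 / 1500) * (n * Z) := by
      rw [hS]; field_simp; ring
    have h2 : ((2 / R0) * Y) / n ≤ (1 / 1000) * S := by
      have hS0 : 0 ≤ S := hY0.trans hYS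
      rw [div_le_iff₀ hn0]
      have : 2 / R0 ≤ 2 / 1000 := by
        apply div_le_div_of_nonneg_left (by norm_num) (by norm_num) hR
      calc (2 / R0) * Y ≤ (2 / 1000) * S := mul_le_mul this hYS hY0 (by norm_num)
        _ ≤ (1 / 1000) * S * n := by nlinarith
    have h3 : 0 ≤ S1 + S2 / n := by positivity
    nlinarith
  intro s hs
  exact ⟨(hab s hs).1.trans hSle, (hab s hs).2.trans hSle⟩

/-- MAIN: uniform bounds of the high modes, both sources -/
theorem Pair.high (M : Pair R0 rho lam m z y f1 f2) (hw : rho - R0 ≤ 1 / 4) (hR : 1000 ≤ R0)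
    {S1 S2 : ℝ} (hS1 : ∀ s ∈ Icc R0 rho, |f1 s| ≤ S1) (hS2 : ∀ s ∈ Icc R0 rho, |f2 s| ≤ S2) :
    ∀ s ∈ Icc R0 rho,
      (Real.sqrt lam / rho) * |y s| ≤ 1.13 * ((Real.sqrt lam / rho) * S1 + S2) ∧
      (lam / rho ^ 2) * |z s| ≤ 1.26 * ((Real.sqrt lam / rho) * S1 + S2) := by
  have hrho : 0 < rho := M.pos.trans M.lt
  have hlr := M.lt
  have hlam0 : 0 ≤ lam := (sq_nonneg rho).trans M.hlam
  set mu : ℝ := Real.sqrt lam / rho with hmu
  have hmu2 : mu ^ 2 = lam / rho ^ 2 := by rw [hmu, div_pow, Real.sq_sqrt hlam0]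
  have hmu0 : 0 ≤ mu := div_nonneg (Real.sqrt_nonneg _) hrho.le
  have hmu1 : 1 ≤ mu := by
    have : 1 ≤ mu ^ 2 := by rw [hmu2, one_le_div (by positivity)]; exact M.hlam
    nlinarith
  have hS10 : 0 ≤ S1 := (abs_nonneg _).trans (hS1 R0 ⟨le_rfl, M.lt.le⟩)
  have hS20 : 0 ≤ S2 := (abs_nonneg _).trans (hS2 R0 ⟨le_rfl, M.lt.le⟩)
  rw [← hmu2]
  rcases le_or_gt (mu ^ 2) 5 with hreg | hreg
  · -- regime A
    have hmuw : mu * (1 / 4) ≤ 0.5591 := by nlinarith
    have hrat : (rho / R0) ^ 2 ≤ 1.00051 := by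
      have h1 : rho / R0 ≤ 1.00025 := by
        rw [div_le_iff₀ M.pos]; linarith
      have h0 : 0 ≤ rho / R0 := by have := M.pos; positivity
      nlinarith
    have hrat0 : 0 ≤ (rho / R0) ^ 2 := sq_nonneg _
    have hy : ∀ s ∈ Icc R0 rho, |y s| ≤ 1.00051 * (S1 + (1 / 4) * S2) := by
      intro s hs
      refine (M.abs_y_le' hS1 hS2 s hs).trans ?_
      apply mul_le_mul hrat _ (by have := M.lt; have : 0 ≤ rho - R0 := by linarith
                                  positivity) (by norm_num)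
      nlinarith
    intro s hs
    have hys := hy s hs
    have hzs := M.abs_z_le hS1 hy s hs
    have hzs' : |z s| ≤ (1 / 4) * (1.00051 * (S1 + (1 / 4) * S2) + S1) := by
      refine hzs.trans ?_
      apply mul_le_mul_of_nonneg_right _ (by positivity)
      linarith [hs.1]
    constructor
    · calc mu * |y s| ≤ mu * (1.00051 * (S1 + (1 / 4) * S2)) := mul_le_mul_of_nonneg_left hys hmu0
        _ = 1.00051 * (mu * S1) + 1.00051 * (mu * (1 / 4)) * S2 := by ring
        _ ≤ 1.13 * (mu * S1 + S2) := by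
          have h1 : 0 ≤ mu * S1 := by positivity
          nlinarith
    · calc mu ^ 2 * |z s| ≤ mu ^ 2 * ((1 / 4) * (1.00051 * (S1 + (1 / 4) * S2) + S1)) :=
            mul_le_mul_of_nonneg_left hzs' (sq_nonneg _)
        _ = 2.00051 * (mu * (1 / 4)) * (mu * S1) +
            1.00051 * (mu * (1 / 4)) ^ 2 * S2 := by ring
        _ ≤ 1.26 * (mu * S1 + S2) := by
          have h1 : 0 ≤ mu * S1 := by positivity
          have h2 : (mu * (1 / 4)) ^ 2 ≤ 0.3126 := by
            have : 0 ≤ mu * (1 / 4) := by positivity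
            nlinarith
          nlinarith
  · -- regime B
    set n : ℝ := Real.sqrt (mu ^ 2 - 1) with hn
    have hn2 : n ^ 2 = mu ^ 2 - 1 := Real.sq_sqrt (by linarith)
    have hn2' : 2 ≤ n := by
      rw [hn]; apply Real.le_sqrt_of_sq_le; linarith
    have hB := M.highB hw hR hS1 hS2 hn2' (by rw [hn2, hmu2])
    have hn0 : 0 < n := by linarith
    have hmun : mu ≤ 1.1181 * n := by
      have : mu ^ 2 ≤ (1.1181 * n) ^ 2 := by nlinarith
      nlinarith
    intro s hs
    obtain ⟨hy, hz⟩ := hB s hs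
    have hT : mu * (S1 + S2 / n) ≤ mu * S1 + 1.1181 * S2 := by
      have : mu * (S2 / n) ≤ 1.1181 * S2 := by
        rw [← mul_div_assoc, div_le_iff₀ hn0]
        nlinarith
      linarith
    constructor
    · calc mu * |y s| ≤ mu * (1.002 * (S1 + S2 / n)) := mul_le_mul_of_nonneg_left hy hmu0
        _ = 1.002 * (mu * (S1 + S2 / n)) := by ring
        _ ≤ 1.002 * (mu * S1 + 1.1181 * S2) := by linarith
        _ ≤ _ := by
          have h1 : 0 ≤ mu * S1 := by positivity
          nlinarith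
    · have h1 : mu ^ 2 * |z s| ≤ 1.1181 * (mu * (n * |z s|)) := by
        have : 0 ≤ mu * |z s| := by positivity
        nlinarith
      have h2 : mu * (n * |z s|) ≤ mu * (1.002 * (S1 + S2 / n)) :=
        mul_le_mul_of_nonneg_left hz hmu0
      have h3 : 0 ≤ mu * S1 := by positivity
      nlinarith

end SGHigh
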